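import Pool.Agent.W192.HK.Parts
import Pool.Agent.W45.CYK.AFE

/-! # Project HK (helper192), HK-AFE (helper511): continuation and central value -/

set_option autoImplicit false

open Complex Filter Topology Set

namespace Pool.Agent.W511.HK

open Pool.Agent.W192.HK
open Pool.Agent.W192.CY (VW Vk)
open Pool.Agent.W192.CM (ez nu)
open Pool.Agent.W45.CYK (mellinK vk_bound)

section general

variable {ι : Type} {N : ι → ℕ}

theorem fib {f : ι → ℂ} (g : ℕ → ℂ) (h : Summable (fun α => f α * g (N α))) :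
    ∑' α : ι, f α * g (N α) = ∑' n : ℕ, (∑' α : N ⁻¹' {n}, f α) * g n := by
  have h1 := h.hasSum.tsum_fiberwise N
  rw [← h1.tsum_eq]
  refine tsum_congr fun n => ?_
  rw [← tsum_mul_right]
  refine tsum_congr fun α => ?_
  rw [show N α = n from α.2]

theorem fib_fin {n : ℕ} (hf : (N ⁻¹' {n}).Finite) {E : Type} [AddCommMonoid E]
    [TopologicalSpace E] [T2Space E] (f : ι → E) :
    ∑' α : N ⁻¹' {n}, f α = ∑ α ∈ hf.toFinset, f α := by
  classical
  rw [tsum_subtype (N ⁻¹' {n}) f, tsum_eq_sum (s := hf.toFinset)]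
  · refine Finset.sum_congr rfl fun α hα => ?_
    rw [Set.indicator_of_mem (hf.mem_toFinset.1 hα)]
  · intro α hα
    rw [Set.indicator_of_notMem (fun h => hα (hf.mem_toFinset.2 h))]

theorem exp_bd (j : ℕ) {c : ℝ} (hc : 0 < c) : ∃ C : ℝ, 0 < C ∧ ∀ t : ℝ, 1 ≤ t →
    t ^ ((j : ℝ) + 1 / 2) * Real.exp (-(c * t)) ≤ C * t ^ (-(2 : ℝ)) := by
  refine ⟨((j + 3).factorial : ℝ) / c ^ (j + 3), by positivity, fun t ht1 => ?_⟩
  have ht : 0 < t := by linarith
  have h1 := Real.pow_div_factorial_le_exp (c * t) (by positivity) (j + 3)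
  have h2 : Real.exp (-(c * t)) ≤ ((j + 3).factorial : ℝ) / (c * t) ^ (j + 3) := by
    rw [Real.exp_neg, ← one_div, div_le_div_iff₀ (Real.exp_pos _) (by positivity), one_mul]
    rw [div_le_iff₀ (by positivity)] at h1
    linarith
  have h4 : t ^ ((j : ℝ) + 1 / 2) ≤ t ^ (j + 3) * t ^ (-(2 : ℝ)) := by
    rw [← Real.rpow_natCast, ← Real.rpow_add ht]
    refine Real.rpow_le_rpow_of_exponent_le ht1 ?_
    push_cast
    linarith
  have h5 : 0 < t ^ (-(2 : ℝ)) := Real.rpow_pos_of_pos ht _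
  calc t ^ ((j : ℝ) + 1 / 2) * Real.exp (-(c * t))
      ≤ (t ^ (j + 3) * t ^ (-(2 : ℝ))) * (((j + 3).factorial : ℝ) / (c * t) ^ (j + 3)) :=
        mul_le_mul h4 h2 (Real.exp_pos _).le (by positivity)
    _ = ((j + 3).factorial : ℝ) / c ^ (j + 3) * t ^ (-(2 : ℝ)) := by
        rw [mul_pow]
        field_simp

theorem summ_f (hS : ∀ σ : ℝ, 1 < σ → Summable (fun I : ι => (N I : ℝ) ^ (-σ)))
    (j : ℕ) (f : ι → ℂ) (hf : ∀ I : ι, ‖f I‖ ≤ (N I : ℝ) ^ ((j : ℝ) + 1 / 2)) (g : ℕ → ℂ)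
    {A c : ℝ} (hc : 0 < c) (hg : ∀ n : ℕ, 1 ≤ n → ‖g n‖ ≤ A * Real.exp (-(c * n))) :
    Summable (fun I : ι => f I * g (N I)) := by
  obtain ⟨C, hC, hb⟩ := exp_bd j hc
  have h1 : Summable (fun I : ι => |A| * C * (N I : ℝ) ^ (-(2 : ℝ))) :=
    (hS 2 (by norm_num)).mul_left _
  refine Summable.of_norm_bounded h1 (fun I => ?_)
  rcases Nat.eq_zero_or_pos (N I) with h0 | h0
  · have h2 := hf I
    rw [h0, Nat.cast_zero, Real.zero_rpow (by positivity)] at h2
    have h3 : ‖f I‖ = 0 := le_antisymm h2 (norm_nonneg _)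
    rw [norm_mul, h3, zero_mul]
    positivity
  · have hN1 : (1 : ℝ) ≤ N I := by exact_mod_cast h0
    have h2 := hg (N I) h0
    rw [norm_mul]
    calc ‖f I‖ * ‖g (N I)‖
        ≤ (N I : ℝ) ^ ((j : ℝ) + 1 / 2) * (|A| * Real.exp (-(c * N I))) := by
          refine mul_le_mul (hf I) (h2.trans ?_) (norm_nonneg _) (by positivity)
          exact mul_le_mul_of_nonneg_right (le_abs_self A) (Real.exp_pos _).le
      _ = |A| * ((N I : ℝ) ^ ((j : ℝ) + 1 / 2) * Real.exp (-(c * N I))) := by ring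
      _ ≤ |A| * (C * (N I : ℝ) ^ (-(2 : ℝ))) :=
          mul_le_mul_of_nonneg_left (hb _ hN1) (abs_nonneg _)
      _ = |A| * C * (N I : ℝ) ^ (-(2 : ℝ)) := by ring

end general

theorem q_ne_top {R : Subring ℂ} {m : ℕ} (hm : 1 ≤ m) {q : Ideal R} {ψ : Ideal R → ℂ}
    (h : HC (2 * m - 1) q ψ) : q ≠ ⊤ := by
  rintro rfl
  have h1 := h.princ 1 one_ne_zero trivial
  have h2 := h.princ (-1) (neg_ne_zero.2 one_ne_zero) trivial
  have e : (sp (-1 : R)) = sp (1 : R) := by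
    simp [Ideal.span_singleton_neg]
  rw [e, h1] at h2
  obtain ⟨k, rfl⟩ : ∃ k, m = k + 1 := ⟨m - 1, by omega⟩
  rw [show 2 * (k + 1) - 1 = 2 * k + 1 by omega] at h2
  push_cast at h2
  rw [one_pow, pow_succ, pow_mul] at h2
  norm_num at h2

theorem Wc_ne (h1 : H_BASIC) (h4 : H_GAUSS) {R : Subring ℂ} {ω : ℂ} (hR : QR R ω) {m : ℕ}
    (hm : 1 ≤ m) {q : Ideal R} {ψ : Ideal R → ℂ} (hψ : HC (2 * m - 1) q ψ)
    {s : Finset (Ideal R)} {hh : Ideal R} {μ : R} {T : Finset R} (hS : Sys q s hh μ T) :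
    Wc ω m q hh μ T ψ ≠ 0 := by
  obtain ⟨-, b2, b3, b4, b5, -⟩ := h1 R ω hR
  have hq := b3 q hψ.ne
  have g1 := (h4 R ω hR _ q ψ hψ (q_ne_top hm hψ) s hh μ T hS).1
  have n1 : gT ω (2 * m - 1) ψ μ T ≠ 0 := by
    intro h
    rw [h, norm_zero] at g1
    norm_num at g1
    linarith
  have n2 : (μ : ℂ) ≠ 0 := by
    intro h
    have h5 := b5 μ
    rw [h, map_zero, ← hS.prn, b4] at h5
    have := b3 hh hS.ne
    have : 0 < nm q * nm hh := by positivity
    linarith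
  have n3 : ψ hh ≠ 0 := by
    intro h
    rcases (hψ.zero hh).1 h with h | h
    · exact hS.ne h
    · exact h hS.cop
  have n4 : (nm q : ℂ) ≠ 0 := by
    have : nm q ≠ 0 := by linarith
    exact_mod_cast this
  unfold Wc
  exact div_ne_zero (mul_ne_zero n1 (pow_ne_zero _ n2)) (mul_ne_zero (pow_ne_zero _ n4) n3)

theorem h_afe (h1 : H_BASIC) (h2 : H_FP) (h3 : H_CNT) (h4 : H_GAUSS) (h5 : H_THETA) :
    H_AFE := by
  intro R ω hR m hm q ψ hψ s hh μ T hS
  have hW := Wc_ne h1 h4 hR hm hψ hS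
  have hqt := q_ne_top hm hψ
  obtain ⟨j, rfl⟩ : ∃ j, m = j + 1 := ⟨m - 1, by omega⟩
  have hexp : 2 * (j + 1) - 1 = 2 * j + 1 := by omega
  obtain ⟨-, b2, b3, b4, b5, -⟩ := h1 R ω hR
  obtain ⟨c1, c2, C, hC, c3, -⟩ := h3 R ω hR
  obtain ⟨f1, -⟩ := h2 R ω hR _ q ψ hψ hqt
  have hψ0 : ψ ⊥ = 0 := (hψ.zero ⊥).2 (Or.inl rfl)
  set N : Ideal R → ℕ := fun I => Nat.card (R ⧸ I) with hN
  have hNn : ∀ I : Ideal R, nm I = (N I : ℝ) := fun I => rfl
  have hNc : ∀ I : Ideal R, (nm I : ℂ) = (N I : ℂ) := fun I => by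
    rw [hNn, Complex.ofReal_natCast]
  have hω := hR.im
  have hpi := Real.pi_pos
  have hq1 := b3 q hψ.ne
  have hsq : 0 < Real.sqrt (nm q) := Real.sqrt_pos.2 (by linarith)
  have hS1 : ∀ σ : ℝ, 1 < σ → Summable (fun I : Ideal R => (N I : ℝ) ^ (-σ)) := fun σ hσ => c2 σ hσ
  have hfn : ∀ I, ‖ψ I‖ ≤ (N I : ℝ) ^ ((j : ℝ) + 1 / 2) := by
    intro I
    by_cases h : ψ I = 0
    · rw [h, norm_zero]
      positivity
    · have h6 : I ≠ ⊥ ∧ IsCoprime I q := by
        constructor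
        · intro h7
          exact h ((hψ.zero I).2 (Or.inl h7))
        · by_contra h7
          exact h ((hψ.zero I).2 (Or.inr h7))
      have h7 := f1 I h6.1 h6.2
      rw [hexp, hNn] at h7
      have h8 : 0 ≤ (N I : ℝ) := Nat.cast_nonneg _
      have h9 : ((N I : ℝ) ^ ((j : ℝ) + 1 / 2)) ^ 2 = (N I : ℝ) ^ (2 * j + 1) := by
        rw [← Real.rpow_natCast, ← Real.rpow_mul h8, ← Real.rpow_natCast]
        congr 1
        push_cast
        ring
      rw [← h9] at h7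
      exact (pow_left_inj₀ (norm_nonneg _) (by positivity) (two_ne_zero)).1 h7 |>.le
  have hcn : ∀ I, ‖(starRingEnd ℂ) (ψ I)‖ ≤ (N I : ℝ) ^ ((j : ℝ) + 1 / 2) := by
    intro I
    rw [RCLike.norm_conj]
    exact hfn I
  have hfib : ∀ n : ℕ, (N ⁻¹' {n}).Finite := by
    intro n
    refine (c1 n).subset ?_
    intro I hI
    have : N I = n := hI
    show nm I ≤ n
    rw [hNn, this]
  set b : ℕ → ℂ := fun n => ∑' I : N ⁻¹' {n}, ψ I with hb
  have hbf : ∀ n, b n = ∑ I ∈ (hfib n).toFinset, ψ I := fun n => fib_fin (hfib n) ψ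
  have hbc : ∀ n, ∑' I : N ⁻¹' {n}, (starRingEnd ℂ) (ψ I) = (starRingEnd ℂ) (b n) := by
    intro n
    rw [hbf, fib_fin (hfib n) (fun I => (starRingEnd ℂ) (ψ I)), map_sum]
  have hb0 : b 0 = 0 := by
    rw [hbf]
    refine Finset.sum_eq_zero fun I hI => ?_
    have h4 : N I = 0 := (hfib 0).mem_toFinset.1 hI
    have h5 := hfn I
    rw [h4, Nat.cast_zero, Real.zero_rpow (by positivity)] at h5
    exact norm_eq_zero.1 (le_antisymm h5 (norm_nonneg _))
  have hbn : ∀ n : ℕ, 1 ≤ n → ‖b n‖ ≤ C * (n : ℝ) ^ ((j : ℝ) + 3 / 2) := by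
    intro n hn
    have hn0 : (0 : ℝ) < n := by exact_mod_cast hn
    have hn1 : (1 : ℝ) ≤ n := by exact_mod_cast hn
    have h4 : ∀ I ∈ (hfib n).toFinset, ‖ψ I‖ ≤ (n : ℝ) ^ ((j : ℝ) + 1 / 2) := by
      intro I hI
      have h5 : N I = n := (hfib n).mem_toFinset.1 hI
      have := hfn I
      rwa [h5] at this
    rw [hbf]
    refine (norm_sum_le _ _).trans ((Finset.sum_le_sum h4).trans ?_)
    rw [Finset.sum_const, nsmul_eq_mul, ← Set.ncard_eq_toFinset_card (N ⁻¹' {n}) (hfib n)]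
    have h7 : ((N ⁻¹' {n}).ncard : ℝ) ≤ C * n := by
      refine le_trans ?_ (c3 n hn1)
      have := Set.ncard_le_ncard (s := N ⁻¹' {n}) (t := {I : Ideal R | nm I ≤ (n : ℝ)}) (by
        intro I hI
        have h8 : N I = n := hI
        show nm I ≤ n
        rw [hNn, h8]) (c1 n)
      exact_mod_cast this
    calc ((N ⁻¹' {n}).ncard : ℝ) * (n : ℝ) ^ ((j : ℝ) + 1 / 2)
        ≤ (C * n) * (n : ℝ) ^ ((j : ℝ) + 1 / 2) :=
          mul_le_mul_of_nonneg_right h7 (by positivity)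
      _ = C * (n : ℝ) ^ ((j : ℝ) + 3 / 2) := by
          rw [show (j : ℝ) + 3 / 2 = 1 + (j + 1 / 2) by ring, Real.rpow_add hn0 1 ((j : ℝ) + 1 / 2),
            Real.rpow_one]
          ring
  -- the theta function
  set Rp : ℝ := 2 * ω.im * Real.sqrt (nm q) with hRp
  have hRp0 : 0 < Rp := by positivity
  have hcoef : ∀ x : ℝ, Real.pi * x / (ω.im * Real.sqrt (nm q)) = 2 * Real.pi * x / Rp := by
    intro x
    rw [hRp]
    field_simp
  have hfe : ∀ t : ℝ, 0 < t → ∑' n : ℕ, b n * (Real.exp (-(2 * Real.pi * n / Rp) / t) : ℂ) =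
      Wc ω (j + 1) q hh μ T ψ * (t : ℂ) ^ (2 * ((j + 1 : ℕ) : ℤ)) * ∑' n : ℕ,
        (starRingEnd ℂ) (b n) * (Real.exp (-(2 * Real.pi * n / Rp) * t) : ℂ) := by
    intro t ht
    have hth := h5 R ω hR (j + 1) hm q ψ hψ s hh μ T hS t ht
    have s1 := summ_f hS1 j ψ hfn (fun n : ℕ => (Real.exp (-(2 * Real.pi * n / Rp) / t) : ℂ))
      (A := 1) (c := 2 * Real.pi / Rp / t) (by positivity) (by
        intro n _
        rw [Complex.norm_real, Real.norm_eq_abs, Real.abs_exp, one_mul]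
        refine le_of_eq ?_
        congr 1
        ring)
    have s2 := summ_f hS1 j (fun I => (starRingEnd ℂ) (ψ I)) hcn
      (fun n : ℕ => (Real.exp (-(2 * Real.pi * n / Rp) * t) : ℂ))
      (A := 1) (c := 2 * Real.pi / Rp * t) (by positivity) (by
        intro n _
        rw [Complex.norm_real, Real.norm_eq_abs, Real.abs_exp, one_mul]
        refine le_of_eq ?_
        congr 1
        ring)
    have e1 := fib (N := N) (f := ψ)
      (fun n : ℕ => (Real.exp (-(2 * Real.pi * n / Rp) / t) : ℂ)) s1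
    have e2 := fib (N := N) (f := fun I => (starRingEnd ℂ) (ψ I))
      (fun n : ℕ => (Real.exp (-(2 * Real.pi * n / Rp) * t) : ℂ)) s2
    simp only [hbc] at e2
    rw [show (2 * ((j + 1 : ℕ) : ℤ)) = ((2 * (j + 1) : ℕ) : ℤ) by push_cast; ring, zpow_natCast]
    rw [← e2]
    refine (e1.symm.trans ?_).trans (hth.trans ?_)
    · refine tsum_congr fun I => ?_
      rw [hcoef, hNn I]
    · congr 1
      refine tsum_congr fun I => ?_
      rw [hcoef, hNn I]
  obtain ⟨F, hFd, hFs, hFc⟩ := mellinK (b := b) (m := (j : ℝ) + 3 / 2) (C := C) (R := Rp)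
    (r := j + 1) (by omega) hRp0 hb0 (by positivity) hbn hW hfe
  -- extension of the series
  set a : ℕ → ℂ := fun n => b n * (n : ℂ) ^ (-((j : ℂ) + 1 / 2)) with ha
  have han : ∀ (s : ℂ) (n : ℕ), a n * (n : ℂ) ^ (-s) = b n * (n : ℂ) ^ (-(s + ((j : ℂ) + 1 / 2))) := by
    intro s n
    rw [ha]
    dsimp only
    rcases Nat.eq_zero_or_pos n with rfl | hn
    · rw [hb0]
      ring
    · have hn' : (n : ℂ) ≠ 0 := by exact_mod_cast hn.ne'
      rw [mul_assoc, ← Complex.cpow_add _ _ hn']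
      congr 2
      ring
  have hFe : ∀ s : ℂ, 1 < s.re → F s = ∑' n : ℕ, a n * (n : ℂ) ^ (-s) := by
    refine fun s hs => W388.ext_series F hFd a (by rw [ha]; simp [hb0]) ?_ ((j : ℝ) + 3 / 2 + 2)
      (fun s hs => ?_) s hs
    · intro s hs
      have k1 := ((hS1 s.re hs).hasSum.tsum_fiberwise N).summable
      refine k1.of_nonneg_of_le (fun n => norm_nonneg _) (fun n => ?_)
      rw [han]
      rcases Nat.eq_zero_or_pos n with rfl | hn
      · rw [hb0, zero_mul, norm_zero]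
        exact tsum_nonneg fun I => by positivity
      · have hn0 : (0 : ℝ) < n := by exact_mod_cast hn
        rw [fib_fin (hfib n) (fun I : Ideal R => (N I : ℝ) ^ (-s.re)), hbf, norm_mul]
        have h5 : ‖(n : ℂ) ^ (-(s + ((j : ℂ) + 1 / 2)))‖ = (n : ℝ) ^ (-(s.re + (j + 1 / 2))) := by
          rw [Complex.norm_natCast_cpow_of_pos hn]
          congr 1
          simp
        rw [h5]
        refine (mul_le_mul_of_nonneg_right (norm_sum_le _ _) (by positivity)).trans ?_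
        rw [Finset.sum_mul]
        refine Finset.sum_le_sum fun I hI => ?_
        have h6 : N I = n := (hfib n).mem_toFinset.1 hI
        have h9 := hfn I
        rw [h6] at h9
        rw [h6]
        calc ‖ψ I‖ * (n : ℝ) ^ (-(s.re + (j + 1 / 2)))
            ≤ (n : ℝ) ^ ((j : ℝ) + 1 / 2) * (n : ℝ) ^ (-(s.re + (j + 1 / 2))) :=
              mul_le_mul_of_nonneg_right h9 (by positivity)
          _ = (n : ℝ) ^ (-s.re) := by
              rw [← Real.rpow_add hn0]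
              congr 1
              ring
    · rw [hFs s hs]
      refine tsum_congr fun n => ?_
      rw [han]
      congr 3
      push_cast
      ring
  -- norm of the terms
  have hnrm : ∀ (z : ℂ) (I : Ideal R), ((j + 1 : ℕ) : ℝ) + 1 / 2 < z.re →
      ‖ψ I * ((N I : ℕ) : ℂ) ^ (-z)‖ ≤ (N I : ℝ) ^ (-(z.re - (j + 1 / 2))) := by
    intro z I hz
    push_cast at hz
    rcases Nat.eq_zero_or_pos (N I) with h0 | h0
    · have h9 := hfn I
      rw [h0, Nat.cast_zero, Real.zero_rpow (by positivity)] at h9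
      have h10 : ‖ψ I‖ = 0 := le_antisymm h9 (norm_nonneg _)
      rw [norm_mul, h10, zero_mul]
      positivity
    · have hn0 : (0 : ℝ) < N I := by exact_mod_cast h0
      rw [norm_mul, Complex.norm_natCast_cpow_of_pos h0]
      calc ‖ψ I‖ * (N I : ℝ) ^ (-z).re
          ≤ (N I : ℝ) ^ ((j : ℝ) + 1 / 2) * (N I : ℝ) ^ (-z).re :=
            mul_le_mul_of_nonneg_right (hfn I) (by positivity)
        _ = (N I : ℝ) ^ (-(z.re - (j + 1 / 2))) := by
            rw [← Real.rpow_add hn0, Complex.neg_re]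
            congr 1
            ring
  refine ⟨fun s => F (s - ((j : ℂ) + 1 / 2)), ?_, ?_, ?_⟩
  · exact hFd.comp (differentiable_id.sub_const _)
  · intro s hs
    have hsm : Summable (fun I : Ideal R => ψ I * ((N I : ℕ) : ℂ) ^ (-s)) := by
      refine Summable.of_norm_bounded (hS1 (s.re - (j + 1 / 2)) (by push_cast at hs; linarith))
        (fun I => ?_)
      exact hnrm s I hs
    have hs' : 1 < (s - ((j : ℂ) + 1 / 2)).re := by
      push_cast at hs
      simp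
      linarith
    have e3 : ∀ n : ℕ, a n * (n : ℂ) ^ (-(s - ((j : ℂ) + 1 / 2))) = b n * (n : ℂ) ^ (-s) := by
      intro n
      rw [han]
      congr 3
      ring
    have e4 := fib (N := N) (f := ψ) (fun n : ℕ => (n : ℂ) ^ (-s)) hsm
    have e6 : F (s - ((j : ℂ) + 1 / 2)) = ∑' I : Ideal R, ψ I * ((N I : ℕ) : ℂ) ^ (-s) := by
      rw [hFe _ hs', e4]
      exact tsum_congr e3
    show HasSum (fun I : Ideal R => ψ I * (nm I : ℂ) ^ (-s)) (F (s - ((j : ℂ) + 1 / 2)))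
    simp only [hNc]
    rw [e6]
    exact hsm.hasSum
  · intro X Y hX hY hXY
    show F (((j + 1 : ℕ) : ℂ) - ((j : ℂ) + 1 / 2)) = _
    rw [show (((j + 1 : ℕ) : ℂ) - ((j : ℂ) + 1 / 2)) = 1 / 2 by push_cast; ring]
    have hXY' : X * Y = Rp ^ 2 / (4 * Real.pi ^ 2) := by
      have hs2 : Real.sqrt (nm q) ^ 2 = nm q := Real.sq_sqrt (by linarith)
      rw [hXY, hRp, mul_pow, mul_pow, hs2]
      field_simp
      ring
    rw [hFc X Y hX hY hXY']
    have hV : ∀ (g : Ideal R → ℂ), (∀ I, ‖g I‖ ≤ (N I : ℝ) ^ ((j : ℝ) + 1 / 2)) →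
        ∀ Z : ℝ, 0 < Z →
        ∑' n : ℕ, (∑' I : N ⁻¹' {n}, g I) / (n : ℂ) ^ (j + 1) * (Vk (j + 1) (n / Z) : ℂ) =
        ∑' I : Ideal R, g I / (nm I : ℂ) ^ (j + 1) * (Vk (j + 1) (nm I / Z) : ℂ) := by
      intro g hg Z hZ
      have s3 := summ_f hS1 j g hg
        (fun n : ℕ => 1 / (n : ℂ) ^ (j + 1) * (Vk (j + 1) (n / Z) : ℂ))
        (A := 2 ^ (j + 1)) (c := 1 / (2 * Z)) (by positivity) (by
          intro n hn
          have hn1 : (1 : ℝ) ≤ n := by exact_mod_cast hn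
          rw [norm_mul, norm_div, norm_one, norm_pow, Complex.norm_natCast, Complex.norm_real,
            Real.norm_eq_abs]
          have q1 := vk_bound (j + 1) (n / Z) (by positivity)
          have q2 : 1 / (n : ℝ) ^ (j + 1) ≤ 1 := by
            rw [div_le_one (by positivity)]
            exact one_le_pow₀ hn1
          calc 1 / (n : ℝ) ^ (j + 1) * |Vk (j + 1) (n / Z)|
              ≤ 1 * (2 ^ (j + 1) * Real.exp (-(n / Z / 2))) :=
                mul_le_mul q2 q1 (abs_nonneg _) zero_le_one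
            _ = 2 ^ (j + 1) * Real.exp (-(1 / (2 * Z) * n)) := by
                rw [one_mul]
                congr 2
                field_simp)
      have e6 := fib (N := N) (f := g)
        (fun n : ℕ => 1 / (n : ℂ) ^ (j + 1) * (Vk (j + 1) (n / Z) : ℂ)) s3
      refine Eq.trans ?_ (e6.symm.trans ?_)
      · refine tsum_congr fun n => ?_
        ring
      · refine tsum_congr fun I => ?_
        rw [hNc I, hNn I]
        ring
    have v1 := hV ψ hfn X hX
    have v2 := hV (fun I => (starRingEnd ℂ) (ψ I)) hcn Y hY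
    simp only [hbc] at v2
    rw [show (∑' n : ℕ, b n / (n : ℂ) ^ (j + 1) * (Vk (j + 1) (n / X) : ℂ)) = _ from v1, v2]

end Pool.Agent.W511.HK
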